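import Pool.Agent.H42SX.Defs

/-! Six-vertex flags with an additional term for the vertex quadruples with exactly one edge: the
symmetry of the additional term, the soundness of the leaf check `chkM`, and the resulting bound.
(Joint work: the plan and the definitions are helper42's, the walk machinery is that of
`H122R2.N6` and `H37R3.Pen`, this file is helper64's.) -/

set_option autoImplicit false
set_option maxRecDepth 100000
set_option maxHeartbeats 4000000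
set_option linter.unusedSimpArgs false
open Finset

namespace Pool.Agent.H42SX
open Pool.Agent.H122R2.N6 Pool.Agent.H37R3.Pen

theorem mo_s1 (A B O xyz xyw xzw yzw xyv xzv yzv xwv ywv zwv xyu xzu yzu xwu ywu zwu : ℕ) :
    mo A B O xyz xyw yzw xzw xyv yzv xzv ywv xwv zwv xyu yzu xzu ywu xwu zwu =
      mo A B O xyz xyw xzw yzw xyv xzv yzv xwv ywv zwv xyu xzu yzu xwu ywu zwu := by
  unfold mo gd
  simp only [Nat.add_eq, Nat.mul_eq, Nat.sub_eq]
  rw [Nat.add_comm yzw xzw, Nat.add_comm yzv xzv, Nat.add_comm yzu xzu,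
    Nat.add_left_comm ywv xwv zwv, Nat.add_left_comm ywu xwu zwu,
    Nat.add_comm (yzv * yzu) (xzv * xzu), Nat.add_comm (yzv * xwu) (xzv * ywu),
    Nat.add_comm ((1 - yzv) * yzu) ((1 - xzv) * xzu),
    Nat.add_comm ((1 - yzv) * xwu) ((1 - xzv) * ywu)]

theorem mo_s2 (A B O xyz xyw xzw yzw xyv xzv yzv xwv ywv zwv xyu xzu yzu xwu ywu zwu : ℕ) :
    mo A B O xyz xzw xyw yzw xzv xyv yzv xwv zwv ywv xzu xyu yzu xwu zwu ywu =
      mo A B O xyz xyw xzw yzw xyv xzv yzv xwv ywv zwv xyu xzu yzu xwu ywu zwu := by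
  unfold mo gd
  simp only [Nat.add_eq, Nat.mul_eq, Nat.sub_eq]
  rw [Nat.add_left_comm xzw xyw yzw, Nat.add_left_comm xzv xyv yzv, Nat.add_left_comm xzu xyu yzu,
    Nat.add_comm zwv ywv, Nat.add_comm zwu ywu,
    Nat.add_left_comm (xzv * xzu) (xyv * xyu) (yzv * yzu),
    Nat.add_left_comm (xzv * ywu) (xyv * zwu) (yzv * xwu),
    Nat.add_left_comm ((1 - xzv) * xzu) ((1 - xyv) * xyu) ((1 - yzv) * yzu),
    Nat.add_left_comm ((1 - xzv) * ywu) ((1 - xyv) * zwu) ((1 - yzv) * xwu)]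

section
variable {V : Type} {E : V → V → V → ℕ} {A B O : ℕ}

theorem Mo_s1 (hE : Sy E) (x y z w v u : V) : Mo E A B O y x z w v u = Mo E A B O x y z w v u := by
  unfold Mo
  rw [hE.h213 x y z, hE.h213 x y w, hE.h213 x y v, hE.h213 x y u]
  exact mo_s1 _ _ _ _ _ _ _ _ _ _ _ _ _ _ _ _ _ _ _

theorem Mo_s2 (hE : Sy E) (x y z w v u : V) : Mo E A B O x z y w v u = Mo E A B O x y z w v u := by
  unfold Mo
  rw [hE.h132 x y z, hE.h213 y z w, hE.h213 y z v, hE.h213 y z u]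
  exact mo_s2 _ _ _ _ _ _ _ _ _ _ _ _ _ _ _ _ _ _ _

theorem M5_sw0 (hE : Sy E) (a b c d e f : V) :
    M5 E A B O b a c d e f = M5 E A B O a b c d e f := by
  unfold M5
  rw [Mo_s1 hE a b e c d f, Mo_s1 hE a b d c e f, Mo_s1 hE a b e d c f, Mo_s1 hE a b c d e f, Mo_s1 hE a b d e c f, Mo_s1 hE a b c e d f]
  ring

theorem M5_sw1 (hE : Sy E) (a b c d e f : V) :
    M5 E A B O a c b d e f = M5 E A B O a b c d e f := by
  unfold M5
  rw [Mo_s1 hE b c e a d f, Mo_s1 hE b c d a e f, Mo_s1 hE b c e d a f, Mo_s2 hE a b c d e f, Mo_s1 hE b c d e a f, Mo_s2 hE a b c e d f]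
  ring

theorem M5_sw2 (hE : Sy E) (a b c d e f : V) :
    M5 E A B O a b d c e f = M5 E A B O a b c d e f := by
  unfold M5
  rw [Mo_s1 hE c d e a b f, Mo_s2 hE b c d a e f, Mo_s1 hE c d e b a f, Mo_s2 hE a c d b e f, Mo_s2 hE b c d e a f, Mo_s2 hE a c d e b f]
  ring

theorem M5_sw3 (hE : Sy E) (a b c d e f : V) :
    M5 E A B O a b c e d f = M5 E A B O a b c d e f := by
  unfold M5
  rw [Mo_s2 hE c d e a b f, Mo_s2 hE b d e a c f, Mo_s2 hE c d e b a f, Mo_s2 hE a d e b c f, Mo_s2 hE b d e c a f, Mo_s2 hE a d e c b f]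
  ring

theorem M6_sw0 (hE : Sy E) (a b c d e f : V) :
    M6 E A B O b a c d e f = M6 E A B O a b c d e f := by
  unfold M6
  rw [M5_sw0 hE a b c d e f, M5_sw0 hE a b c d f e, M5_sw0 hE a b c e f d, M5_sw0 hE a b d e f c]
  ring

theorem M6_sw1 (hE : Sy E) (a b c d e f : V) :
    M6 E A B O a c b d e f = M6 E A B O a b c d e f := by
  unfold M6
  rw [M5_sw1 hE a b c d e f, M5_sw1 hE a b c d f e, M5_sw1 hE a b c e f d, M5_sw0 hE b c d e f a]
  ring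

theorem M6_sw2 (hE : Sy E) (a b c d e f : V) :
    M6 E A B O a b d c e f = M6 E A B O a b c d e f := by
  unfold M6
  rw [M5_sw2 hE a b c d e f, M5_sw2 hE a b c d f e, M5_sw1 hE a c d e f b, M5_sw1 hE b c d e f a]
  ring

theorem M6_sw3 (hE : Sy E) (a b c d e f : V) :
    M6 E A B O a b c e d f = M6 E A B O a b c d e f := by
  unfold M6
  rw [M5_sw3 hE a b c d e f, M5_sw2 hE a b d e f c, M5_sw2 hE a c d e f b, M5_sw2 hE b c d e f a]
  ring

theorem h321 (hE : Sy E) (x y z : V) : E z y x = E x y z := by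
  rw [hE.h213 y z x, hE.h231 x y z]

theorem lm5_eq (hE : Sy E) (a b c d e f : V) :
    lm5 A B O (E a b c) (E a b d) (E a c d) (E b c d) (E a b e) (E a c e) (E b c e) (E a d e) (E b d e) (E c d e) (E a b f) (E a c f) (E b c f) (E a d f) (E b d f) (E c d f) (E a e f) (E b e f) (E c e f) (E d e f) =
      M5 E A B O a b c d e f := by
  unfold M5 Mo lm5
  simp only [Nat.add_eq, hE.h132 a b c, hE.h231 a b c, hE.h213 a b c, hE.h312 a b c, h321 hE a b c, hE.h132 a b d, hE.h231 a b d, hE.h213 a b d, hE.h312 a b d, h321 hE a b d, hE.h132 a b e, hE.h231 a b e, hE.h213 a b e, hE.h312 a b e, h321 hE a b e, hE.h132 a b f, hE.h231 a b f, hE.h213 a b f, hE.h312 a b f, h321 hE a b f, hE.h132 a c d, hE.h231 a c d, hE.h213 a c d, hE.h312 a c d, h321 hE a c d, hE.h132 a c e, hE.h231 a c e, hE.h213 a c e, hE.h312 a c e, h321 hE a c e, hE.h132 a c f, hE.h231 a c f, hE.h213 a c f, hE.h312 a c f, h321 hE a c f, hE.h132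 a d e, hE.h231 a d e, hE.h213 a d e, hE.h312 a d e, h321 hE a d e, hE.h132 a d f, hE.h231 a d f, hE.h213 a d f, hE.h312 a d f, h321 hE a d f, hE.h132 a e f, hE.h231 a e f, hE.h213 a e f, hE.h312 a e f, h321 hE a e f, hE.h132 b c d, hE.h231 b c d, hE.h213 b c d, hE.h312 b c d, h321 hE b c d, hE.h132 b c e, hE.h231 b c e, hE.h213 b c e, hE.h312 b c e, h321 hE b c e, hE.h132 b c f, hE.h231 b c f, hE.h213 b c f, hE.h312 b c f, h321 hE b c f, hE.h132 b d e, hE.h231 b d e, hE.h213 b d e, hE.h312 b d e, h321 hE b d e, hE.h132 b d f, hE.h231 b d f, hE.h213 b d f, hE.h312 b d f, h321 hE b d f, hE.h132 b e f, hE.h231 b e f, hE.h213 b e f, hE.h312 b e f, h321 hE b e f, hE.h132 c d e, hE.h231 c d e, hE.h213 c d e, hE.h312 c d e, h321 hE c d e, hE.h132 c d f, hE.h231 c d f, hE.h213 c d f, hE.h312 c d f, h321 hE c d f, hE.h132 c e f, hE.h231 c e f, hE.h213 c e f, hE.h312 c e f, h321 hE c e f, hE.h132 d e f,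 hE.h231 d e f, hE.h213 d e f, hE.h312 d e f, h321 hE d e f]

/-- the code value of the additional term is the additional term -/
theorem M6l_eq (hE : Sy E) (a b c d e f : V) :
    M6l E A B O a b c d e f = M6 E A B O a b c d e f := by
  unfold M6l M6 lm6
  rw [← lm5_eq (A := A) (B := B) (O := O) hE a b c d e f, ← lm5_eq (A := A) (B := B) (O := O) hE a b c d f e, ← lm5_eq (A := A) (B := B) (O := O) hE a b c e f d, ← lm5_eq (A := A) (B := B) (O := O) hE a b d e f c, ← lm5_eq (A := A) (B := B) (O := O) hE a c d e f b, ← lm5_eq (A := A) (B := B) (O := O) hE b c d e f a]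
  simp only [Nat.add_eq, hE.h132 a e f, hE.h132 b e f, hE.h132 c e f, hE.h132 d e f, hE.h132 a d e, hE.h132 b d e, hE.h132 c d e, hE.h132 a d f, hE.h132 b d f, hE.h132 c d f, hE.h231 d e f, hE.h132 a c d, hE.h132 b c d, hE.h132 a c e, hE.h132 b c e, hE.h231 c d e, hE.h132 a c f, hE.h132 b c f, hE.h231 c d f, hE.h231 c e f, hE.h132 a b c, hE.h132 a b d, hE.h231 b c d, hE.h132 a b e, hE.h231 b c e, hE.h231 b d e, hE.h132 a b f, hE.h231 b c f, hE.h231 b d f, hE.h231 b e f, hE.h231 a b c, hE.h231 a b d, hE.h231 a c d, hE.h231 a b e, hE.h231 a c e, hE.h231 a d e, hE.h231 a b f, hE.h231 a c f, hE.h231 a d f, hE.h231 a e f]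

theorem chkM_sound (hE : Sy E) (hK : NoK4 E) {q4 : ℕ → ℕ → ℕ → ℕ} {q2 : ℕ → ℕ → ℕ} {C A B O : ℕ}
    (a b c d e f : V)
    (h : chkM q4 q2 C A B O (E a b c) (E a b d) (E a c d) (E b c d) (E a b e) (E a c e) (E b c e) (E a d e) (E b d e) (E c d e) = true) :
    K4l E q4 a b c d e f + K2l E q2 a b c d e f + M6l E A B O a b c d e f ≤ C := by
  have h1 := (or_false_left (or_false_left (or_false_left (B2_true (or_false_left (or_false_left (B2_true (or_false_left (B2_true (B2_true (or_false_left (or_false_left (B2_true (or_false_left (B2_true (B2_true (or_false_left (B2_true (B2_true (B2_true h (hE.b a b f)) (hE.b a c f)) (hE.b b c f)) (hK a b c f)) (hE.b a d f)) (hE.b b d f)) (hK a b d f)) (hE.b c d f)) (hK a c d f)) (hK b c d f)) (hE.b a e f)) (hE.b b e f)) (hK a b e f)) (hE.b c e f)) (hK a c e f)) (hK b c e f)) (hE.b d e f)) (hK a d e f)) (hK b d e f)) (hK c d e f))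
  exact Nat.le_of_ble_eq_true h1

def GoodM (E : V → V → V → ℕ) (q4 : ℕ → ℕ → ℕ → ℕ) (q2 : ℕ → ℕ → ℕ) (C A B O : ℕ) (b012 b013 b023 b123 b014 b024 b124 b034 b134 b234 : ℕ) : Prop :=
  ∀ a b c d e f : V, E a b c = b012 → E a b d = b013 → E a c d = b023 → E b c d = b123 → E a b e = b014 → E a c e = b024 → E b c e = b124 → E a d e = b034 → E b d e = b134 → E c d e = b234 →
    L4 E q4 a b c d e f + L2 E q2 a b c d e f + M6 E A B O a b c d e f ≤ C

theorem rep_goodM (hE : Sy E) (hK : NoK4 E) {q4 : ℕ → ℕ → ℕ → ℕ} {q2 : ℕ → ℕ → ℕ} {C A B O : ℕ}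
    (hc : ∀ b012 b013 b023 b123 b014 b024 b124 b034 b134 b234 : ℕ, Bt b012 → Bt b013 → Bt b023 → Bt b123 → Bt b014 → Bt b024 → Bt b124 → Bt b034 → Bt b134 → Bt b234 → tg b012 b013 b023 b123 b014 b024 b124 b034 b134 b234 = 4 → chkM q4 q2 C A B O b012 b013 b023 b123 b014 b024 b124 b034 b134 b234 = true)
    (b012 b013 b023 b123 b014 b024 b124 b034 b134 b234 : ℕ) (ht : tg b012 b013 b023 b123 b014 b024 b124 b034 b134 b234 = 4) : GoodM E q4 q2 C A B O b012 b013 b023 b123 b014 b024 b124 b034 b134 b234 := by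
  intro a b c d e f h0 h1 h2 h3 h4 h5 h6 h7 h8 h9
  subst h0 h1 h2 h3 h4 h5 h6 h7 h8 h9
  have h := hc _ _ _ _ _ _ _ _ _ _ (hE.b _ _ _) (hE.b _ _ _) (hE.b _ _ _) (hE.b _ _ _) (hE.b _ _ _) (hE.b _ _ _) (hE.b _ _ _) (hE.b _ _ _) (hE.b _ _ _) (hE.b _ _ _) ht
  have h2 := chkM_sound hE hK a b c d e f h
  rwa [K4l_eq E q4 hE.h132 hE.h231 hE.h213 hE.h312, K2l_eq E q2 hE.h132 hE.h231 hE.h213 hE.h312, M6l_eq hE] at h2

theorem goodM_sw0 (hE : Sy E) {q4 : ℕ → ℕ → ℕ → ℕ} {q2 : ℕ → ℕ → ℕ} {C A B O : ℕ}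
    (hs4 : sym4 q4 = true) (hs2 : sym2 q2 = true) (b012 b013 b023 b123 b014 b024 b124 b034 b134 b234 : ℕ)
    (h : GoodM E q4 q2 C A B O b012 b013 b123 b023 b014 b124 b024 b134 b034 b234) : GoodM E q4 q2 C A B O b012 b013 b023 b123 b014 b024 b124 b034 b134 b234 := by
  intro a b c d e f h0 h1 h2 h3 h4 h5 h6 h7 h8 h9
  have h' := h b a c d e f ((hE.h213 _ _ _).trans h0) ((hE.h213 _ _ _).trans h1) h3 h2 ((hE.h213 _ _ _).trans h4) h6 h5 h8 h7 h9
  rwa [L4_sw0 hE hs4, L2_sw0 hE hs2, M6_sw0 hE] at h'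

theorem goodM_sw1 (hE : Sy E) {q4 : ℕ → ℕ → ℕ → ℕ} {q2 : ℕ → ℕ → ℕ} {C A B O : ℕ}
    (hs4 : sym4 q4 = true) (hs2 : sym2 q2 = true) (b012 b013 b023 b123 b014 b024 b124 b034 b134 b234 : ℕ)
    (h : GoodM E q4 q2 C A B O b012 b023 b013 b123 b024 b014 b124 b034 b234 b134) : GoodM E q4 q2 C A B O b012 b013 b023 b123 b014 b024 b124 b034 b134 b234 := by
  intro a b c d e f h0 h1 h2 h3 h4 h5 h6 h7 h8 h9
  have h' := h a c b d e f ((hE.h132 _ _ _).trans h0) h2 h1 ((hE.h213 _ _ _).trans h3) h5 h4 ((hE.h213 _ _ _).trans h6) h7 h9 h8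
  rwa [L4_sw1 hE hs4, L2_sw1 hE hs2, M6_sw1 hE] at h'

theorem goodM_sw2 (hE : Sy E) {q4 : ℕ → ℕ → ℕ → ℕ} {q2 : ℕ → ℕ → ℕ} {C A B O : ℕ}
    (hs4 : sym4 q4 = true) (hs2 : sym2 q2 = true) (b012 b013 b023 b123 b014 b024 b124 b034 b134 b234 : ℕ)
    (h : GoodM E q4 q2 C A B O b013 b012 b023 b123 b014 b034 b134 b024 b124 b234) : GoodM E q4 q2 C A B O b012 b013 b023 b123 b014 b024 b124 b034 b134 b234 := by
  intro a b c d e f h0 h1 h2 h3 h4 h5 h6 h7 h8 h9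
  have h' := h a b d c e f h1 h0 ((hE.h132 _ _ _).trans h2) ((hE.h132 _ _ _).trans h3) h4 h7 h8 h5 h6 ((hE.h213 _ _ _).trans h9)
  rwa [L4_sw2 hE hs4, L2_sw2 hE hs2, M6_sw2 hE] at h'

theorem goodM_sw3 (hE : Sy E) {q4 : ℕ → ℕ → ℕ → ℕ} {q2 : ℕ → ℕ → ℕ} {C A B O : ℕ}
    (hs4 : sym4 q4 = true) (hs2 : sym2 q2 = true) (b012 b013 b023 b123 b014 b024 b124 b034 b134 b234 : ℕ)
    (h : GoodM E q4 q2 C A B O b012 b014 b024 b124 b013 b023 b123 b034 b134 b234) : GoodM E q4 q2 C A B O b012 b013 b023 b123 b014 b024 b124 b034 b134 b234 := by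
  intro a b c d e f h0 h1 h2 h3 h4 h5 h6 h7 h8 h9
  have h' := h a b c e d f h0 h4 h5 h6 h1 h2 h3 ((hE.h132 _ _ _).trans h7) ((hE.h132 _ _ _).trans h8) ((hE.h132 _ _ _).trans h9)
  rwa [L4_sw3 hE hs4, L2_sw3 hE hs2, M6_sw3 hE] at h'

theorem walk_goodM (hE : Sy E) {q4 : ℕ → ℕ → ℕ → ℕ} {q2 : ℕ → ℕ → ℕ} {C A B O : ℕ}
    (hs4 : sym4 q4 = true) (hs2 : sym2 q2 = true)
    (hr : ∀ b012 b013 b023 b123 b014 b024 b124 b034 b134 b234 : ℕ, tg b012 b013 b023 b123 b014 b024 b124 b034 b134 b234 = 4 → GoodM E q4 q2 C A B O b012 b013 b023 b123 b014 b024 b124 b034 b134 b234) (n : ℕ) :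
    ∀ b012 b013 b023 b123 b014 b024 b124 b034 b134 b234 : ℕ, walk n b012 b013 b023 b123 b014 b024 b124 b034 b134 b234 = true → GoodM E q4 q2 C A B O b012 b013 b023 b123 b014 b024 b124 b034 b134 b234 := by
  induction n with
  | zero =>
    intro b012 b013 b023 b123 b014 b024 b124 b034 b134 b234 h
    exact hr _ _ _ _ _ _ _ _ _ _ (Nat.eq_of_beq_eq_true h)
  | succ n ih =>
    intro b012 b013 b023 b123 b014 b024 b124 b034 b134 b234 h
    change (cond (Nat.beq (tg b012 b013 b023 b123 b014 b024 b124 b034 b134 b234) 4) true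
      (cond (Nat.beq (tg b012 b013 b023 b123 b014 b024 b124 b034 b134 b234) 0) (walk n b012 b013 b123 b023 b014 b124 b024 b134 b034 b234)
      (cond (Nat.beq (tg b012 b013 b023 b123 b014 b024 b124 b034 b134 b234) 1) (walk n b012 b023 b013 b123 b024 b014 b124 b034 b234 b134)
      (cond (Nat.beq (tg b012 b013 b023 b123 b014 b024 b124 b034 b134 b234) 2) (walk n b013 b012 b023 b123 b014 b034 b134 b024 b124 b234)
      (cond (Nat.beq (tg b012 b013 b023 b123 b014 b024 b124 b034 b134 b234) 3) (walk n b012 b014 b024 b124 b013 b023 b123 b034 b134 b234) false))))) = true at h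
    cases h4 : Nat.beq (tg b012 b013 b023 b123 b014 b024 b124 b034 b134 b234) 4 with
    | true => exact hr _ _ _ _ _ _ _ _ _ _ (Nat.eq_of_beq_eq_true h4)
    | false =>
    rw [h4] at h
    cases h0 : Nat.beq (tg b012 b013 b023 b123 b014 b024 b124 b034 b134 b234) 0 with
    | true => rw [h0] at h; exact goodM_sw0 hE hs4 hs2 _ _ _ _ _ _ _ _ _ _ (ih _ _ _ _ _ _ _ _ _ _ h)
    | false =>
    rw [h0] at h
    cases h1 : Nat.beq (tg b012 b013 b023 b123 b014 b024 b124 b034 b134 b234) 1 with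
    | true => rw [h1] at h; exact goodM_sw1 hE hs4 hs2 _ _ _ _ _ _ _ _ _ _ (ih _ _ _ _ _ _ _ _ _ _ h)
    | false =>
    rw [h1] at h
    cases h2 : Nat.beq (tg b012 b013 b023 b123 b014 b024 b124 b034 b134 b234) 2 with
    | true => rw [h2] at h; exact goodM_sw2 hE hs4 hs2 _ _ _ _ _ _ _ _ _ _ (ih _ _ _ _ _ _ _ _ _ _ h)
    | false =>
    rw [h2] at h
    cases h3 : Nat.beq (tg b012 b013 b023 b123 b014 b024 b124 b034 b134 b234) 3 with
    | true => rw [h3] at h; exact goodM_sw3 hE hs4 hs2 _ _ _ _ _ _ _ _ _ _ (ih _ _ _ _ _ _ _ _ _ _ h)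
    | false => rw [h3] at h; simp at h


theorem leafM_all (hE : Sy E) (hK : NoK4 E) {q4 : ℕ → ℕ → ℕ → ℕ} {q2 : ℕ → ℕ → ℕ} {C A B O : ℕ}
    (hs4 : sym4 q4 = true) (hs2 : sym2 q2 = true)
    (hc : ∀ b012 b013 b023 b123 b014 b024 b124 b034 b134 b234 : ℕ, Bt b012 → Bt b013 → Bt b023 → Bt b123 → Bt b014 → Bt b024 → Bt b124 → Bt b034 → Bt b134 → Bt b234 → tg b012 b013 b023 b123 b014 b024 b124 b034 b134 b234 = 4 → chkM q4 q2 C A B O b012 b013 b023 b123 b014 b024 b124 b034 b134 b234 = true)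
    (a b c d e f : V) : L4 E q4 a b c d e f + L2 E q2 a b c d e f + M6 E A B O a b c d e f ≤ C := by
  have h := (B2_true (B2_true (B2_true (B2_true (B2_true (B2_true (B2_true (B2_true (B2_true (B2_true walk_all (hE.b a b c)) (hE.b a b d)) (hE.b a c d)) (hE.b b c d)) (hE.b a b e)) (hE.b a c e)) (hE.b b c e)) (hE.b a d e)) (hE.b b d e)) (hE.b c d e))
  have h5 : five (E a b c) (E a b d) (E a c d) (E b c d) (E a b e) (E a c e) (E b c e) (E a d e) (E b d e) (E c d e) = false := by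
    unfold five
    rw [hK a b c d, hK a b c e, hK a b d e, hK a c d e, hK b c d e]
    rfl
  have hw := or_false_left h h5
  exact walk_goodM hE hs4 hs2 (fun b012 b013 b023 b123 b014 b024 b124 b034 b134 b234 h4 => rep_goodM hE hK hc b012 b013 b023 b123 b014 b024 b124 b034 b134 b234 h4) _ _ _ _ _ _ _ _ _ _ _ hw
    a b c d e f rfl rfl rfl rfl rfl rfl rfl rfl rfl rfl

end

section
variable {V : Type} [Fintype V] (E : V → V → V → ℕ)

theorem sumM5 (A B O : ℕ) :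
    ∑ x : Fin 6 → V, (M5 E A B O (x 0) (x 1) (x 2) (x 3) (x 4) (x 5) : ℤ)
      = 20 * ∑ x : Fin 6 → V, (Mo E A B O (x 0) (x 1) (x 2) (x 3) (x 4) (x 5) : ℤ) := by
  have m : ∀ i0 i1 i2 i3 i4 i5 : Fin 6, Function.Injective ![i0, i1, i2, i3, i4, i5] →
      ∑ x : Fin 6 → V, (Mo E A B O (x i0) (x i1) (x i2) (x i3) (x i4) (x i5) : ℤ)
      = ∑ x : Fin 6 → V, (Mo E A B O (x 0) (x 1) (x 2) (x 3) (x 4) (x 5) : ℤ) :=
    fun i0 i1 i2 i3 i4 i5 hg =>
      psum (fun a b c d e f => (Mo E A B O a b c d e f : ℤ)) ![i0, i1, i2, i3, i4, i5]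
        (Finite.injective_iff_bijective.mp hg)
  simp only [M5, Nat.cast_add, sum_add_distrib]
  rw [m 2 3 4 0 1 5 (by decide), m 1 3 4 0 2 5 (by decide), m 1 2 4 0 3 5 (by decide), m 1 2 3 0 4 5 (by decide), m 2 3 4 1 0 5 (by decide), m 0 3 4 1 2 5 (by decide), m 0 2 4 1 3 5 (by decide), m 0 2 3 1 4 5 (by decide), m 1 3 4 2 0 5 (by decide), m 0 3 4 2 1 5 (by decide), m 0 1 4 2 3 5 (by decide), m 0 1 3 2 4 5 (by decide), m 1 2 4 3 0 5 (by decide), m 0 2 4 3 1 5 (by decide), m 0 1 4 3 2 5 (by decide), m 1 2 3 4 0 5 (by decide), m 0 2 3 4 1 5 (by decide), m 0 1 3 4 2 5 (by decide), m 0 1 2 4 3 5 (by decide)]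
  ring

theorem sumM6 (A B O : ℕ) :
    ∑ x : Fin 6 → V, (M6 E A B O (x 0) (x 1) (x 2) (x 3) (x 4) (x 5) : ℤ)
      = 120 * ∑ x : Fin 6 → V, (Mo E A B O (x 0) (x 1) (x 2) (x 3) (x 4) (x 5) : ℤ) := by
  have m : ∀ i0 i1 i2 i3 i4 i5 : Fin 6, Function.Injective ![i0, i1, i2, i3, i4, i5] →
      ∑ x : Fin 6 → V, (M5 E A B O (x i0) (x i1) (x i2) (x i3) (x i4) (x i5) : ℤ)
      = ∑ x : Fin 6 → V, (M5 E A B O (x 0) (x 1) (x 2) (x 3) (x 4) (x 5) : ℤ) :=
    fun i0 i1 i2 i3 i4 i5 hg =>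
      psum (fun a b c d e f => (M5 E A B O a b c d e f : ℤ)) ![i0, i1, i2, i3, i4, i5]
        (Finite.injective_iff_bijective.mp hg)
  simp only [M6, Nat.cast_add, sum_add_distrib]
  rw [m 0 1 2 3 5 4 (by decide), m 0 1 2 4 5 3 (by decide), m 0 1 3 4 5 2 (by decide), m 0 2 3 4 5 1 (by decide), m 1 2 3 4 5 0 (by decide), sumM5]
  ring

/-- the bound from the leaf inequality with the additional term -/
theorem boundM (hE : Sy E) (K K2 C : ℕ) (A B O : ℕ)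
    (q4 : ℕ → ℕ → ℕ → ℕ) (W : ℕ → ℕ → ℕ) (l : ℕ → ℕ → ℕ → ℕ)
    (q2 : ℕ → ℕ → ℕ) (W2 : ℕ → ℕ) (l2 : ℕ → ℕ → ℕ) (B' O4 O2 : ℤ) (t : ℕ → ℤ)
    (hq4 : ∀ c i j, c < 16 → i < 64 → j < 64 → (q4 c i j : ℤ) =
      ∑ k ∈ range K, (W c k : ℤ) * ((l c i k : ℤ) - B') * ((l c j k : ℤ) - B') + O4)
    (hq2 : ∀ i j, i < 16 → j < 16 → (q2 i j : ℤ) =
      ∑ k ∈ range K2, (W2 k : ℤ) * ((l2 i k : ℤ) - B') * ((l2 j k : ℤ) - B') + (O2 + t (kk i j)))
    (hleaf : ∀ a b c d e f : V, L4 E q4 a b c d e f + L2 E q2 a b c d e f + M6 E A B O a b c d e f ≤ C) :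
    45 * T2 E t + (15 * O4 + 45 * O2) * (Fintype.card V : ℤ) ^ 6 +
        120 * ∑ x : Fin 6 → V, (Mo E A B O (x 0) (x 1) (x 2) (x 3) (x 4) (x 5) : ℤ)
      ≤ C * (Fintype.card V : ℤ) ^ 6 := by
  have A4 := lower4 E hE K q4 W l B' O4 (fun _ => 0) (fun c i j hc hi hj => by
    rw [hq4 c i j hc hi hj, add_zero])
  have hz : Sv E (fun _ => 0) = 0 := by unfold Sv; simp
  rw [hz] at A4
  have A2 := lower2t E hE K2 q2 W2 l2 B' O2 t hq2
  have key : ∑ x : Fin 6 → V, ((L4 E q4 (x 0) (x 1) (x 2) (x 3) (x 4) (x 5) : ℤ)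
      + (L2 E q2 (x 0) (x 1) (x 2) (x 3) (x 4) (x 5) : ℤ)
      + (M6 E A B O (x 0) (x 1) (x 2) (x 3) (x 4) (x 5) : ℤ)) ≤ C * (Fintype.card V : ℤ) ^ 6 := by
    calc _ ≤ ∑ x : Fin 6 → V, (C : ℤ) :=
          sum_le_sum fun x _ => by exact_mod_cast hleaf (x 0) (x 1) (x 2) (x 3) (x 4) (x 5)
      _ = C * (Fintype.card V : ℤ) ^ 6 := by
          rw [sum_const, card_univ, Fintype.card_fun, Fintype.card_fin, nsmul_eq_mul]
          push_cast
          ring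
  rw [sum_add_distrib, sum_add_distrib, sumL4 E q4, sumL2 E q2, sumM6 E A B O] at key
  linarith

end
end Pool.Agent.H42SX
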