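import Pool.Agent.H42SX.Defs

/-! The sum of the additional term of the six-vertex flags over all six-tuples is bounded below
by means of the violations of the degree condition, with a tolerance. (The version without tolerance is
`H42SW.Sum`, by helper20; this is an adaptation.) -/

set_option autoImplicit false
set_option maxRecDepth 100000
set_option maxHeartbeats 4000000
open Finset
open scoped Classical

namespace Pool.Agent.H42SX
open Pool.Agent.H122R2.N6 Pool.Agent.H37R3.Pen

section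
variable {V : Type} [Fintype V]

theorem gd_true {xyz xyw xzw yzw xwv ywv zwv : ℕ} (h : gd xyz xyw xzw yzw xwv ywv zwv = true) :
    xyz = 1 ∧ xyw = 0 ∧ xzw = 0 ∧ yzw = 0 := by
  unfold gd at h
  simp only [Bool.and_eq_true] at h
  obtain ⟨h1, h2, _⟩ := h
  have e1 := Nat.eq_of_beq_eq_true h1
  have e2 : xyw + (xzw + yzw) = 0 := Nat.eq_of_beq_eq_true h2
  omega

theorem mo_off {A B O xyz xyw xzw yzw xwv ywv zwv : ℕ} (h : gd xyz xyw xzw yzw xwv ywv zwv = false)
    (xyv xzv yzv xyu xzu yzu xwu ywu zwu : ℕ) :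
    mo A B O xyz xyw xzw yzw xyv xzv yzv xwv ywv zwv xyu xzu yzu xwu ywu zwu = O := by
  unfold mo
  rw [h]
  rfl

/-- the common shape of the two nontrivial cases -/
theorem val_cast {B O : ℕ} (p q r : ℕ) (hp : p + (q + r) = 1)
    (xyu xzu yzu xwu ywu zwu : ℕ) (hB : 4 * B ≤ O) (h1 : Bt xwu) (h2 : Bt ywu) (h3 : Bt zwu) :
    ((O + B * (xyu + (xzu + yzu) + (p * xyu + (q * xzu + r * yzu)))
      - B * (xwu + (ywu + zwu) + (p * zwu + (q * ywu + r * xwu))) : ℕ) : ℤ)
      = O + B * (xyu + xzu + yzu + (p * xyu + q * xzu + r * yzu))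
          - B * (xwu + ywu + zwu + (p * zwu + q * ywu + r * xwu)) := by
  have l1 := Bt_lt h1
  have l2 := Bt_lt h2
  have l3 := Bt_lt h3
  have hle : B * (xwu + (ywu + zwu) + (p * zwu + (q * ywu + r * xwu)))
      ≤ O + B * (xyu + (xzu + yzu) + (p * xyu + (q * xzu + r * yzu))) := by
    have k1 : p * zwu ≤ p := by
      calc p * zwu ≤ p * 1 := Nat.mul_le_mul_left _ (by omega)
        _ = p := mul_one p
    have k2 : q * ywu ≤ q := by
      calc q * ywu ≤ q * 1 := Nat.mul_le_mul_left _ (by omega)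
        _ = q := mul_one q
    have k3 : r * xwu ≤ r := by
      calc r * xwu ≤ r * 1 := Nat.mul_le_mul_left _ (by omega)
        _ = r := mul_one r
    have : B * (xwu + (ywu + zwu) + (p * zwu + (q * ywu + r * xwu))) ≤ B * 4 :=
      Nat.mul_le_mul_left _ (by omega)
    omega
  push_cast [Nat.cast_sub hle]
  ring

theorem mo_1 {A B O xyz xyw xzw yzw xwv ywv zwv : ℕ} (h : gd xyz xyw xzw yzw xwv ywv zwv = true)
    (p q r : ℕ) (hp : p + (q + r) = 1)
    (xyu xzu yzu xwu ywu zwu : ℕ) (hB : 400 * B ≤ O) (h1 : Bt xwu) (h2 : Bt ywu) (h3 : Bt zwu) :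
    (mo A B O xyz xyw xzw yzw p q r xwv ywv zwv xyu xzu yzu xwu ywu zwu : ℤ)
      = ((O + B : ℕ) : ℤ) + ((100 * B : ℕ) : ℤ) * (xyu + xzu + yzu + (p * xyu + q * xzu + r * yzu))
          - ((100 * B : ℕ) : ℤ) * (xwu + ywu + zwu + (p * zwu + q * ywu + r * xwu)) := by
  rw [← val_cast (B := 100 * B) (O := O + B) p q r hp xyu xzu yzu xwu ywu zwu (by omega) h1 h2 h3]
  congr 1
  unfold mo
  have b1 : Nat.beq (Nat.add p (Nat.add q r)) 1 = true := by
    have : Nat.add p (Nat.add q r) = 1 := hp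
    rw [this]
    rfl
  rw [h, b1]
  rfl

theorem mo_2 {A B O xyz xyw xzw yzw xwv ywv zwv : ℕ} (h : gd xyz xyw xzw yzw xwv ywv zwv = true)
    (p q r : ℕ) (hp2 : p + (q + r) = 2) (hp : (1 - p) + ((1 - q) + (1 - r)) = 1)
    (xyu xzu yzu xwu ywu zwu : ℕ) (hA : 400 * A ≤ O) (h1 : Bt xwu) (h2 : Bt ywu) (h3 : Bt zwu) :
    (mo A B O xyz xyw xzw yzw p q r xwv ywv zwv xyu xzu yzu xwu ywu zwu : ℤ)
      = ((O + A : ℕ) : ℤ) + ((100 * A : ℕ) : ℤ) *
            (xyu + xzu + yzu + ((1 - p : ℕ) * xyu + (1 - q : ℕ) * xzu + (1 - r : ℕ) * yzu))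
          - ((100 * A : ℕ) : ℤ) *
            (xwu + ywu + zwu + ((1 - p : ℕ) * zwu + (1 - q : ℕ) * ywu + (1 - r : ℕ) * xwu)) := by
  rw [← val_cast (B := 100 * A) (O := O + A) (1 - p) (1 - q) (1 - r) hp xyu xzu yzu xwu ywu zwu
    (by omega) h1 h2 h3]
  congr 1
  unfold mo
  have b1 : Nat.beq (Nat.add p (Nat.add q r)) 1 = false := by
    have : Nat.add p (Nat.add q r) = 2 := hp2
    rw [this]
    rfl
  have b2 : Nat.beq (Nat.add p (Nat.add q r)) 2 = true := by
    have : Nat.add p (Nat.add q r) = 2 := hp2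
    rw [this]
    rfl
  rw [h, b1, b2]
  rfl

theorem mo_3 {A B O xyz xyw xzw yzw xwv ywv zwv : ℕ} (p q r : ℕ) (hp1 : p + (q + r) ≠ 1)
    (hp2 : p + (q + r) ≠ 2) (xyu xzu yzu xwu ywu zwu : ℕ) :
    mo A B O xyz xyw xzw yzw p q r xwv ywv zwv xyu xzu yzu xwu ywu zwu = O := by
  unfold mo
  have b1 : Nat.beq (Nat.add p (Nat.add q r)) 1 = false := by
    rw [← Bool.not_eq_true]
    exact fun h => hp1 (Nat.eq_of_beq_eq_true h)
  have b2 : Nat.beq (Nat.add p (Nat.add q r)) 2 = false := by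
    rw [← Bool.not_eq_true]
    exact fun h => hp2 (Nat.eq_of_beq_eq_true h)
  rw [b1, b2]
  cases gd xyz xyw xzw yzw xwv ywv zwv <;> rfl

/-- some `v` forms an edge with `w` and each of `x, y, z`, and with two of `x, y, z` -/
def Lk (E : V → V → V → ℕ) (x y z w : V) : Prop :=
  ∃ v, E x w v = 1 ∧ E y w v = 1 ∧ E z w v = 1 ∧ (E x y v = 1 ∨ E x z v = 1 ∨ E y z v = 1)

/-- the increase of the degree sum when `z` is replaced by `w` -/
def inc (E : V → V → V → ℕ) (x y z w : V) : ℤ :=
  ∑ u, (E x w u : ℤ) + ∑ u, (E y w u : ℤ) - ∑ u, (E x z u : ℤ) - ∑ u, (E y z u : ℤ)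

/-- the violation, in units of `n / 200` beyond the tolerance -/
noncomputable def vp (E : V → V → V → ℕ) (x y z w : V) : ℤ :=
  max 0 (200 * inc E x y z w - (Fintype.card V : ℤ))

/-- the term of the violation sum -/
noncomputable def vL (E : V → V → V → ℕ) (x y z w : V) : ℤ :=
  if (E x y z = 1 ∧ E x y w = 0 ∧ E x z w = 0 ∧ E y z w = 0) ∧ Lk E x y z w then
    vp E x y z w else 0

noncomputable def ViolL (E : V → V → V → ℕ) : ℤ := ∑ x, ∑ y, ∑ z, ∑ w, vL E x y z w

theorem vL_nonneg (E : V → V → V → ℕ) (x y z w : V) : 0 ≤ vL E x y z w := by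
  unfold vL
  split_ifs
  · exact le_max_left _ _
  · exact le_rfl

theorem ViolL_nonneg (E : V → V → V → ℕ) : 0 ≤ ViolL E :=
  sum_nonneg fun x _ => sum_nonneg fun y _ => sum_nonneg fun z _ => sum_nonneg fun w _ =>
    vL_nonneg E x y z w

theorem const_sum (c : ℤ) : ∑ _u : V, c = c * (Fintype.card V : ℤ) := by
  rw [sum_const, card_univ, nsmul_eq_mul, mul_comm]

theorem inner_Mo {E : V → V → V → ℕ} (hE : Sy E) (A B O : ℕ) (hA : 400 * A ≤ O) (hB : 400 * B ≤ O)
    (R : ℕ) (hRA : A ≤ R) (hRB : B ≤ R) (x y z w v : V) :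
    2 * ((O : ℤ) * (Fintype.card V : ℤ)) ≤ 2 * ∑ u, (Mo E A B O x y z w v u : ℤ)
      + R * (vL E x y z w + vL E x z y w + vL E y z x w) := by
  have hR0 : (0 : ℤ) ≤ R := Int.natCast_nonneg _
  have hpos : (0 : ℤ) ≤ R * (vL E x y z w + vL E x z y w + vL E y z x w) :=
    mul_nonneg hR0 (add_nonneg (add_nonneg (vL_nonneg _ _ _ _ _)
      (vL_nonneg _ _ _ _ _)) (vL_nonneg _ _ _ _ _))
  cases hg : gd (E x y z) (E x y w) (E x z w) (E y z w) (E x w v) (E y w v) (E z w v) with
  | false =>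
    have e : ∑ u, (Mo E A B O x y z w v u : ℤ) = (O : ℤ) * (Fintype.card V : ℤ) := by
      rw [← const_sum]
      refine sum_congr rfl fun u _ => ?_
      unfold Mo
      rw [mo_off hg]
    linarith
  | true =>
    by_cases hk : E x y v + (E x z v + E y z v) = 1 ∨ E x y v + (E x z v + E y z v) = 2
    · have h3 : E x w v + (E y w v + E z w v) = 3 := by
        unfold gd at hg
        simp only [Bool.and_eq_true] at hg
        exact Nat.eq_of_beq_eq_true hg.2.2
      have hgt := gd_true hg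
      have b1 := hE.b x w v
      have b2 := hE.b y w v
      have b3 := hE.b z w v
      have b4 := hE.b x y v
      have b5 := hE.b x z v
      have b6 := hE.b y z v
      have f1 : E x w v = 1 := by unfold Bt at b1 b2 b3; omega
      have f2 : E y w v = 1 := by unfold Bt at b1 b2 b3; omega
      have f3 : E z w v = 1 := by unfold Bt at b1 b2 b3; omega
      have f4 : E x y v = 1 ∨ E x z v = 1 ∨ E y z v = 1 := by unfold Bt at b4 b5 b6; omega
      have l1 : Lk E x y z w := ⟨v, f1, f2, f3, f4⟩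
      have l2 : Lk E x z y w := ⟨v, f1, f3, f2, by rw [hE.h213 y z v]; tauto⟩
      have l3 : Lk E y z x w := ⟨v, f2, f3, f1, by rw [hE.h213 x y v, hE.h213 x z v]; tauto⟩
      have c1 : (E x y z = 1 ∧ E x y w = 0 ∧ E x z w = 0 ∧ E y z w = 0) ∧ Lk E x y z w := ⟨hgt, l1⟩
      have c2 : (E x z y = 1 ∧ E x z w = 0 ∧ E x y w = 0 ∧ E z y w = 0) ∧ Lk E x z y w := by
        refine ⟨?_, l2⟩
        rw [hE.h132 x y z, hE.h213 y z w]
        tauto
      have c3 : (E y z x = 1 ∧ E y z w = 0 ∧ E y x w = 0 ∧ E z x w = 0) ∧ Lk E y z x w := by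
        refine ⟨?_, l3⟩
        rw [hE.h231 x y z, hE.h213 x y w, hE.h213 x z w]
        tauto
      have i2 : inc E x z y w = ∑ u, (E x w u : ℤ) + ∑ u, (E z w u : ℤ) - ∑ u, (E x y u : ℤ)
          - ∑ u, (E y z u : ℤ) := by
        unfold inc
        have q3 : ∀ u, E z y u = E y z u := fun u => hE.h213 y z u
        simp only [q3]
      have i3 : inc E y z x w = ∑ u, (E y w u : ℤ) + ∑ u, (E z w u : ℤ) - ∑ u, (E x y u : ℤ)
          - ∑ u, (E x z u : ℤ) := by
        unfold inc
        have q2 : ∀ u, E y x u = E x y u := fun u => hE.h213 x y u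
        have q3 : ∀ u, E z x u = E x z u := fun u => hE.h213 x z u
        simp only [q2, q3]
      have v1 : vL E x y z w = vp E x y z w := by unfold vL; rw [if_pos c1]
      have v2 : vL E x z y w = vp E x z y w := by unfold vL; rw [if_pos c2]
      have v3 : vL E y z x w = vp E y z x w := by unfold vL; rw [if_pos c3]
      rw [v1, v2, v3]
      have hRA' : (A : ℤ) ≤ R := by exact_mod_cast hRA
      have hRB' : (B : ℤ) ≤ R := by exact_mod_cast hRB
      have hA0 : (0 : ℤ) ≤ A := Int.natCast_nonneg _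
      have hB0 : (0 : ℤ) ≤ B := Int.natCast_nonneg _
      have m1 : 0 ≤ vp E x y z w := le_max_left _ _
      have m2 : 0 ≤ vp E x z y w := le_max_left _ _
      have m3 : 0 ≤ vp E y z x w := le_max_left _ _
      have n1 : 200 * inc E x y z w - (Fintype.card V : ℤ) ≤ vp E x y z w := le_max_right _ _
      have n2 : 200 * inc E x z y w - (Fintype.card V : ℤ) ≤ vp E x z y w := le_max_right _ _
      have n3 : 200 * inc E y z x w - (Fintype.card V : ℤ) ≤ vp E y z x w := le_max_right _ _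
      rw [i2] at n2
      rw [i3] at n3
      unfold inc at n1
      generalize vp E x y z w = M1 at *
      generalize vp E x z y w = M2 at *
      generalize vp E y z x w = M3 at *
      have a1 := mul_le_mul_of_nonneg_right hRA' m1
      have a2 := mul_le_mul_of_nonneg_right hRA' m2
      have a3 := mul_le_mul_of_nonneg_right hRA' m3
      have b1 := mul_le_mul_of_nonneg_right hRB' m1
      have b2 := mul_le_mul_of_nonneg_right hRB' m2
      have b3 := mul_le_mul_of_nonneg_right hRB' m3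
      have c1 := mul_le_mul_of_nonneg_left n1 hA0
      have c2 := mul_le_mul_of_nonneg_left n2 hA0
      have c3 := mul_le_mul_of_nonneg_left n3 hA0
      have d1 := mul_le_mul_of_nonneg_left n1 hB0
      have d2 := mul_le_mul_of_nonneg_left n2 hB0
      have d3 := mul_le_mul_of_nonneg_left n3 hB0
      have f1 := mul_nonneg hB0 m1
      have f2 := mul_nonneg hB0 m2
      have f3 := mul_nonneg hB0 m3
      have g1 := mul_nonneg hA0 m1
      have g2 := mul_nonneg hA0 m2
      have g3 := mul_nonneg hA0 m3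
      have h1 := hE.b x y v
      have h2 := hE.b x z v
      have h3' := hE.b y z v
      by_cases h1' : E x y v + (E x z v + E y z v) = 1
      · have e : ∑ u, (Mo E A B O x y z w v u : ℤ) = ((O + B : ℕ) : ℤ) * (Fintype.card V : ℤ)
            + ((100 * B : ℕ) : ℤ) * (∑ u, (E x y u : ℤ) + ∑ u, (E x z u : ℤ) + ∑ u, (E y z u : ℤ)
                + (E x y v * ∑ u, (E x y u : ℤ) + E x z v * ∑ u, (E x z u : ℤ)
                  + E y z v * ∑ u, (E y z u : ℤ)))
            - ((100 * B : ℕ) : ℤ) * (∑ u, (E x w u : ℤ) + ∑ u, (E y w u : ℤ) + ∑ u, (E z w u : ℤ)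
                + (E x y v * ∑ u, (E z w u : ℤ) + E x z v * ∑ u, (E y w u : ℤ)
                  + E y z v * ∑ u, (E x w u : ℤ))) := by
          simp only [← const_sum, ← sum_add_distrib, mul_sum, ← sum_sub_distrib]
          exact sum_congr rfl fun u _ => by
            unfold Mo
            rw [mo_1 hg _ _ _ h1' _ _ _ _ _ _ hB (hE.b _ _ _) (hE.b _ _ _) (hE.b _ _ _)]
        rw [e]
        rcases h1 with h1 | h1
        · rcases h2 with h2 | h2
          · have h3' : E y z v = 1 := by omega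
            rw [h1, h2, h3']
            push_cast
            linarith
          · have h3' : E y z v = 0 := by omega
            rw [h1, h2, h3']
            push_cast
            linarith
        · have h2 : E x z v = 0 := by omega
          have h3' : E y z v = 0 := by omega
          rw [h1, h2, h3']
          push_cast
          linarith
      · have h1'' : E x y v + (E x z v + E y z v) = 2 := by tauto
        have l1 := Bt_lt h1
        have l2 := Bt_lt h2
        have l3 := Bt_lt h3'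
        have hc : (1 - E x y v) + ((1 - E x z v) + (1 - E y z v)) = 1 := by omega
        have e : ∑ u, (Mo E A B O x y z w v u : ℤ) = ((O + A : ℕ) : ℤ) * (Fintype.card V : ℤ)
            + ((100 * A : ℕ) : ℤ) * (∑ u, (E x y u : ℤ) + ∑ u, (E x z u : ℤ) + ∑ u, (E y z u : ℤ)
                + ((1 - E x y v : ℕ) * ∑ u, (E x y u : ℤ) + (1 - E x z v : ℕ) * ∑ u, (E x z u : ℤ)
                  + (1 - E y z v : ℕ) * ∑ u, (E y z u : ℤ)))
            - ((100 * A : ℕ) : ℤ) * (∑ u, (E x w u : ℤ) + ∑ u, (E y w u : ℤ) + ∑ u, (E z w u : ℤ)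
                + ((1 - E x y v : ℕ) * ∑ u, (E z w u : ℤ) + (1 - E x z v : ℕ) * ∑ u, (E y w u : ℤ)
                  + (1 - E y z v : ℕ) * ∑ u, (E x w u : ℤ))) := by
          simp only [← const_sum, ← sum_add_distrib, mul_sum, ← sum_sub_distrib]
          exact sum_congr rfl fun u _ => by
            unfold Mo
            rw [mo_2 hg _ _ _ h1'' hc _ _ _ _ _ _ hA (hE.b _ _ _) (hE.b _ _ _) (hE.b _ _ _)]
        rw [e]
        rcases h1 with h1 | h1
        · have h2 : E x z v = 1 := by omega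
          have h3' : E y z v = 1 := by omega
          rw [h1, h2, h3']
          push_cast
          linarith
        · rcases h2 with h2 | h2
          · have h3' : E y z v = 1 := by omega
            rw [h1, h2, h3']
            push_cast
            linarith
          · have h3' : E y z v = 0 := by omega
            rw [h1, h2, h3']
            push_cast
            linarith
    · have e : ∑ u, (Mo E A B O x y z w v u : ℤ) = (O : ℤ) * (Fintype.card V : ℤ) := by
        rw [← const_sum]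
        refine sum_congr rfl fun u _ => ?_
        unfold Mo
        rw [mo_3 _ _ _ (fun h => hk (Or.inl h)) (fun h => hk (Or.inr h))]
      linarith

theorem sum_Mo {E : V → V → V → ℕ} (hE : Sy E) (A B O : ℕ) (hA : 400 * A ≤ O) (hB : 400 * B ≤ O)
    (R : ℕ) (hRA : A ≤ R) (hRB : B ≤ R) :
    2 * ((O : ℤ) * (Fintype.card V : ℤ) ^ 6) ≤
      2 * (∑ x : Fin 6 → V, (Mo E A B O (x 0) (x 1) (x 2) (x 3) (x 4) (x 5) : ℤ))
        + 3 * R * (Fintype.card V : ℤ) * ViolL E := by
  rw [conv6 (fun a b c d e f => (Mo E A B O a b c d e f : ℤ))]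
  have h1 : ∑ x : V, ∑ y : V, ∑ z : V, ∑ w : V, ∑ _v : V, 2 * ((O : ℤ) * (Fintype.card V : ℤ))
      ≤ ∑ x, ∑ y, ∑ z, ∑ w, ∑ v, (2 * ∑ u, (Mo E A B O x y z w v u : ℤ)
        + R * (vL E x y z w + vL E x z y w + vL E y z x w)) :=
    sum_le_sum fun x _ => sum_le_sum fun y _ => sum_le_sum fun z _ => sum_le_sum fun w _ =>
      sum_le_sum fun v _ => inner_Mo hE A B O hA hB R hRA hRB x y z w v
  have h2 : ∑ x : V, ∑ y : V, ∑ z : V, ∑ w : V, ∑ _v : V, 2 * ((O : ℤ) * (Fintype.card V : ℤ))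
      = 2 * ((O : ℤ) * (Fintype.card V : ℤ) ^ 6) := by
    simp only [sum_const, card_univ, nsmul_eq_mul]
    ring
  have hV : ViolL E = ∑ x, ∑ y, ∑ z, ∑ w, vL E x y z w := rfl
  have s2 : ∑ x, ∑ y, ∑ z, ∑ w, vL E x z y w = ViolL E := by
    rw [hV]
    refine sum_congr rfl fun x _ => ?_
    rw [sum_comm]
  have s3 : ∑ x, ∑ y, ∑ z, ∑ w, vL E y z x w = ViolL E := by
    rw [hV, sum_comm]
    refine sum_congr rfl fun x _ => ?_
    rw [sum_comm]
  have h3 : ∑ x, ∑ y, ∑ z, ∑ w, ∑ v, (2 * ∑ u, (Mo E A B O x y z w v u : ℤ)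
        + R * (vL E x y z w + vL E x z y w + vL E y z x w))
      = 2 * ∑ x, ∑ y, ∑ z, ∑ w, ∑ v, ∑ u, (Mo E A B O x y z w v u : ℤ)
        + R * (Fintype.card V : ℤ) * (∑ x, ∑ y, ∑ z, ∑ w, vL E x y z w
          + ∑ x, ∑ y, ∑ z, ∑ w, vL E x z y w + ∑ x, ∑ y, ∑ z, ∑ w, vL E y z x w) := by
    simp only [sum_add_distrib, mul_add, mul_sum, sum_const, card_univ, nsmul_eq_mul]
    have : ∀ t : ℤ, (Fintype.card V : ℤ) * ((R : ℤ) * t) = (R : ℤ) * (Fintype.card V : ℤ) * t := by
      intro t; ring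
    simp only [this]
  rw [s2, s3, ← hV] at h3
  rw [h2, h3] at h1
  linarith

end

end Pool.Agent.H42SX
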